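import Pool.Agent.H85.TB.Vn

set_option autoImplicit false

namespace Pool.Agent.Results.MP_099948_al.BoundedOrPolynomial

open H85.TA

/-- Let `X` be a finite alphabet and `G` a subgroup of the group generated by the automorphisms of the
rooted tree of the words over `X` which have bounded activity (finite-state or not) and by the finite-state
automorphisms of polynomial activity. If every subgroup of `G` is finitely generated, then `G` is virtually
abelian; in particular `G` is almost polycyclic. -/
theorem result (X : Type*) [Finite X] (G : Subgroup (TreeAut X))
    (hG : G ≤ Subgroup.closure {s : TreeAut X | (∃ C : ℕ, ∀ n, act s n ≤ C) ∨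
      (FiniteState s ∧ PolyActivity s)})
    (hmax : ∀ H : Subgroup G, H.FG) : VirtuallyAbelian G ∧ AlmostPolycyclic G :=
  mainV X G hG hmax

end Pool.Agent.Results.MP_099948_al.BoundedOrPolynomial
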