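import Pool.Agent.H85.TN.Main

set_option autoImplicit false

namespace Pool.Agent.Results.MP_099948_al.Contracting

open H85.TA H85.TG

/-- Let `X` be a finite alphabet and `G` a contracting self-similar group of automorphisms of the rooted
tree of words over `X`. A subgroup of `G` all whose subgroups are finitely generated is virtually nilpotent
and almost polycyclic. -/
theorem result (X : Type*) [Finite X] (G : Subgroup (TreeAut X)) (hG : Contracting G)
    (H : Subgroup (TreeAut X)) (hH : H ≤ G) (hmax : ∀ K : Subgroup H, K.FG) :
    Group.IsVirtuallyNilpotent H ∧ AlmostPolycyclic H :=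
  H85.TN.mainCN X G hG H hH hmax

end Pool.Agent.Results.MP_099948_al.Contracting
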