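import Pool.Agent.H85.TN.Main

set_option autoImplicit false

namespace Pool.Agent.Results.MP_099948_al.LevelTransitive

open H85.TA

/-- Let `G` be a group of automorphisms of the rooted tree of the words over `X` (any alphabet), `η` an
infinite word whose prefixes `pre η n` have finite `G`-orbits `T G η n`. These orbits are the levels of a
locally finite rooted tree on which `G` acts level-transitively; suppose that the action on it is faithful.
Suppose that for some increasing sequence of levels `k j`, for every `g` in `G` there is `ε > 0` such that the
number of the vertices of the level `k j` at which `g` has a nontrivial section is small compared with the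
power `1 - ε` of the number of all vertices of this level. If every subgroup of `G` is finitely generated,
then `G` is virtually nilpotent and almost polycyclic. -/
theorem result (X : Type*) (G : Subgroup (TreeAut X)) (η : ℕ → X)
    (hfin : ∀ n, (T G η n).Finite)
    (hfaith : ∀ g ∈ G, (∀ n, ∀ w ∈ T G η n, g • w = w) → g = 1)
    (k : ℕ → ℕ) (hk : StrictMono k)
    (hact : ∀ g ∈ G, ∃ ε : ℝ, 0 < ε ∧ Filter.Tendsto
      (fun j => (Set.ncard {w | w ∈ T G η (k j) ∧ sec g w ≠ 1} : ℝ) /
        ((T G η (k j)).ncard : ℝ) ^ (1 - ε)) Filter.atTop (nhds 0))
    (hmax : ∀ H : Subgroup G, H.FG) : Group.IsVirtuallyNilpotent G ∧ AlmostPolycyclic G :=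
  H85.TN.mainLN X G η hfin hfaith k hk hact hmax

end Pool.Agent.Results.MP_099948_al.LevelTransitive
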