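import Pool.Agent.H85.TN.Main

set_option autoImplicit false

namespace Pool.Agent.Results.MP_099948_al.PolynomialSchreierGrowth

open H85.TA

/-- Let `G` be a group generated by a finite set `S`, acting faithfully on a set `Ω`, such that for some
`C` and `d` there are arbitrarily large radii `r` for which all balls of radius `r` in the Schreier graphs
of the action have at most `C r ^ d` points. If every subgroup of `G` is finitely generated, then `G` is
virtually nilpotent and almost polycyclic. -/
theorem result (G : Type*) [Group G] (Ω : Type*) [MulAction G Ω] [FaithfulSMul G Ω] (S : Finset G)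
    (hS : Subgroup.closure (S : Set G) = ⊤) (C d : ℕ)
    (hgrowth : ∀ r₀ : ℕ, ∃ r ≥ r₀, ∀ x : Ω, (sball S r x).ncard ≤ C * r ^ d)
    (hmax : ∀ H : Subgroup G, H.FG) : Group.IsVirtuallyNilpotent G ∧ AlmostPolycyclic G :=
  H85.TN.mainGN G Ω S hS C d hgrowth hmax

end Pool.Agent.Results.MP_099948_al.PolynomialSchreierGrowth
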